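import Mathlib

/-!
# MP_aae45c_an, Q1: the modular topology of `ℓ^(p_n)` is not regular when `(p_n)` is unbounded
-/

open Filter Set
open scoped Topology ENNReal

namespace Pool.Agent.Results.MP_aae45c_an.NotRegular

/-- The modular `ρ_p(a) = ∑_j |a_j|^(p_j) ∈ [0,∞]`. -/
noncomputable def rho (p a : ℕ → ℝ) : ℝ≥0∞ := ∑' j, ENNReal.ofReal (|a j| ^ p j)

/-- The space `ℓ^(p_n)`. -/
def Space (p : ℕ → ℝ) : Type := {a : ℕ → ℝ // ∃ l : ℝ, 0 < l ∧ rho p (fun j => l * a j) < ⊤}

/-- `ρ`-convergence of a sequence. -/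
def RhoConv {p : ℕ → ℝ} (x : ℕ → Space p) (y : Space p) : Prop :=
  Tendsto (fun k => rho p (fun j => (x k).1 j - y.1 j)) atTop (𝓝 0)

/-- `ρ`-closed sets: closed under `ρ`-limits of sequences. -/
def RhoClosed {p : ℕ → ℝ} (F : Set (Space p)) : Prop :=
  ∀ x : ℕ → Space p, (∀ k, x k ∈ F) → ∀ y, RhoConv x y → y ∈ F

/-- The modular topology: its closed sets are the `ρ`-closed sets. -/
@[reducible] def modTop (p : ℕ → ℝ) : TopologicalSpace (Space p) :=
  TopologicalSpace.ofClosed {F | RhoClosed F}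
    (fun x hx _ _ => hx 0)
    (fun _ hT x hx y hy F hF => hT hF x (fun k => hx k F hF) y hy)
    (by
      intro F hF G hG x hx y hy
      by_cases h : ∃ᶠ k in atTop, x k ∈ F
      · left
        obtain ⟨φ, hφ, hφF⟩ := extraction_of_frequently_atTop h
        exact hF (x ∘ φ) hφF y (hy.comp hφ.tendsto_atTop)
      · right
        rw [not_frequently] at h
        obtain ⟨N, hN⟩ := eventually_atTop.1 h
        refine hG (fun k => x (k + N)) (fun k => ?_) y (hy.comp (tendsto_add_atTop_nat N))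
        rcases hx (k + N) with h1 | h1
        · exact absurd h1 (hN (k + N) (by omega))
        · exact h1)

lemma isClosed_iff {p : ℕ → ℝ} {F : Set (Space p)} : IsClosed[modTop p] F ↔ RhoClosed F := by
  rw [← @isOpen_compl_iff _ _ (modTop p)]
  change Fᶜᶜ ∈ {F | RhoClosed F} ↔ _
  rw [compl_compl]
  rfl

/-- open sets contain small modular balls -/
lemma open_ball {p : ℕ → ℝ} {U : Set (Space p)} (hU : IsOpen[modTop p] U) {y : Space p}
    (hy : y ∈ U) : ∃ K : ℕ, ∀ z : Space p,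
      rho p (fun j => z.1 j - y.1 j) < ((K : ℝ≥0∞) + 1)⁻¹ → z ∈ U := by
  by_contra hcon
  push Not at hcon
  choose z hz hzU using hcon
  have hcl : RhoClosed Uᶜ := by
    rw [← isClosed_iff]
    exact (@isClosed_compl_iff _ (modTop p) _).2 hU
  refine hcl z hzU y ?_ hy
  have hlim : Tendsto (fun K : ℕ => ((K : ℝ≥0∞) + 1)⁻¹) atTop (𝓝 0) := by
    have h1 : Tendsto (fun K : ℕ => (((K + 1 : ℕ) : ℝ≥0∞))⁻¹) atTop (𝓝 0) :=
      (ENNReal.tendsto_inv_nat_nhds_zero).comp (tendsto_add_atTop_nat 1)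
    simpa using h1
  exact tendsto_of_tendsto_of_tendsto_of_le_of_le tendsto_const_nhds hlim
    (fun _ => bot_le) (fun K => (hz K).le)

section construction

variable {p : ℕ → ℝ} {e : ℕ → ℕ}

/-- the vector with value `w k` at the coordinate `e k` and `0` elsewhere -/
noncomputable def ext (e : ℕ → ℕ) (w : ℕ → ℝ) : ℕ → ℝ := Function.extend e w 0

lemma ext_apply (he : Function.Injective e) (w : ℕ → ℝ) (k : ℕ) : ext e w (e k) = w k :=
  he.extend_apply _ _ _

lemma ext_of_notMem (w : ℕ → ℝ) {j : ℕ} (hj : ¬ ∃ k, e k = j) : ext e w j = 0 :=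
  Function.extend_apply' _ _ _ hj

lemma rho_ext (hp : ∀ n, 1 ≤ p n) (he : Function.Injective e) (w : ℕ → ℝ) :
    rho p (ext e w) = ∑' k, ENNReal.ofReal (|w k| ^ p (e k)) := by
  unfold rho
  rw [← he.tsum_eq]
  · refine tsum_congr fun k => ?_
    rw [ext_apply he]
  · intro j hj
    by_contra hcon
    apply hj
    have hcon' : ¬ ∃ k, e k = j := hcon
    simp only [ext_of_notMem w hcon', abs_zero]
    rw [Real.zero_rpow (by linarith [hp j])]
    simp

lemma ext_sub (he : Function.Injective e) (w v : ℕ → ℝ) :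
    (fun j => ext e w j - ext e v j) = ext e (fun k => w k - v k) := by
  funext j
  by_cases hj : ∃ k, e k = j
  · obtain ⟨k, rfl⟩ := hj
    rw [ext_apply he, ext_apply he, ext_apply he]
  · rw [ext_of_notMem _ hj, ext_of_notMem _ hj, ext_of_notMem _ hj, sub_zero]

lemma ext_mul (he : Function.Injective e) (w : ℕ → ℝ) (l : ℝ) :
    (fun j => l * ext e w j) = ext e (fun k => l * w k) := by
  funext j
  by_cases hj : ∃ k, e k = j
  · obtain ⟨k, rfl⟩ := hj
    rw [ext_apply he, ext_apply he]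
  · rw [ext_of_notMem _ hj, ext_of_notMem _ hj, mul_zero]

/-- the constant `9 = ∑ (9/10)^(k+1)` -/
noncomputable def BB : ℝ≥0∞ := ∑' k : ℕ, ENNReal.ofReal ((9 / 10 : ℝ) ^ (k + 1))

lemma BB_lt_top : BB < ⊤ := by
  unfold BB
  have hs : Summable fun k : ℕ => (9 / 10 : ℝ) ^ (k + 1) :=
    (summable_nat_add_iff 1).2 (summable_geometric_of_lt_one (by norm_num) (by norm_num))
  rw [← ENNReal.ofReal_tsum_of_nonneg (fun k => by positivity) hs]
  exact ENNReal.ofReal_lt_top

/-- the basic estimate -/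
lemma rho_ext_le (hp : ∀ n, 1 ≤ p n) (he : Function.Injective e)
    (hpe : ∀ k : ℕ, (k : ℝ) + 1 ≤ p (e k)) {w : ℕ → ℝ} {m : ℕ} (h0 : ∀ k, k < m → w k = 0)
    (h1 : ∀ k, |w k| ≤ 81 / 100) :
    rho p (ext e w) ≤ ENNReal.ofReal ((9 / 10 : ℝ) ^ m) * BB := by
  rw [rho_ext hp he, BB, ← ENNReal.tsum_mul_left]
  refine ENNReal.tsum_le_tsum fun k => ?_
  by_cases hk : k < m
  · rw [h0 k hk, abs_zero, Real.zero_rpow (by linarith [hp (e k)])]
    simp
  · push Not at hk
    rw [← ENNReal.ofReal_mul (by positivity)]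
    refine ENNReal.ofReal_le_ofReal ?_
    calc |w k| ^ p (e k) ≤ (81 / 100 : ℝ) ^ p (e k) :=
          Real.rpow_le_rpow (abs_nonneg _) (h1 k) (by linarith [hp (e k)])
      _ ≤ (81 / 100 : ℝ) ^ ((k : ℝ) + 1) :=
          Real.rpow_le_rpow_of_exponent_ge (by norm_num) (by norm_num) (hpe k)
      _ = (9 / 10 : ℝ) ^ (k + 1) * (9 / 10 : ℝ) ^ (k + 1) := by
          rw [← mul_pow, ← Real.rpow_natCast]
          norm_num
      _ ≤ (9 / 10 : ℝ) ^ m * (9 / 10 : ℝ) ^ (k + 1) := by
          refine mul_le_mul_of_nonneg_right ?_ (by positivity)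
          exact pow_le_pow_of_le_one (by norm_num) (by norm_num) (by omega)

/-- codes of the initial segments -/
def pc (b : ℕ → ℕ) (k : ℕ) : ℕ := Encodable.encode ((List.range (k + 1)).map b)

lemma pc_ge_zero (b : ℕ → ℕ) (k : ℕ) : b 0 ≤ pc b k := by
  unfold pc
  rw [List.range_succ_eq_map, List.map_cons, Encodable.encode_list_cons]
  exact (Nat.left_le_pair _ _).trans (Nat.le_succ _)

lemma length_le_encode (l : List ℕ) : l.length ≤ Encodable.encode l := by
  induction l with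
  | nil => simp
  | cons a l ih =>
    rw [Encodable.encode_list_cons, List.length_cons]
    have := Nat.right_le_pair (Encodable.encode a) (Encodable.encode l)
    omega

lemma lt_pc (b : ℕ → ℕ) (k : ℕ) : k < pc b k := by
  have h := length_le_encode ((List.range (k + 1)).map b)
  rw [List.length_map, List.length_range] at h
  exact h

lemma pc_eq_iff {b b' : ℕ → ℕ} {k k' : ℕ} :
    pc b k = pc b' k' ↔ k = k' ∧ ∀ i, i ≤ k → b i = b' i := by
  unfold pc
  rw [Encodable.encode_inj]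
  constructor
  · intro h
    have h1 := congrArg List.length h
    simp only [List.length_map, List.length_range] at h1
    have h2 : k = k' := by omega
    subst h2
    refine ⟨rfl, fun i hi => ?_⟩
    rw [List.map_eq_map_iff] at h
    exact h i (List.mem_range.2 (by omega))
  · rintro ⟨rfl, h⟩
    rw [List.map_eq_map_iff]
    intro i hi
    exact h i (by have := List.mem_range.1 hi; omega)

open Classical in
/-- `c 1_{S_b}` -/
noncomputable def wy (b : ℕ → ℕ) (k : ℕ) : ℝ := if ∃ l, pc b l = k then 81 / 100 else 0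

open Classical in
/-- `c 1_{S_b} + c 1_{S_b ∩ [K,∞)}` -/
noncomputable def wz (b : ℕ → ℕ) (K k : ℕ) : ℝ :=
  wy b k + if K ≤ k then wy b k else 0

lemma wy_cases (b : ℕ → ℕ) (k : ℕ) : wy b k = 81 / 100 ∨ wy b k = 0 := by
  unfold wy
  split_ifs
  · left; rfl
  · right; rfl

lemma wy_ne_zero {b : ℕ → ℕ} {k : ℕ} (h : wy b k ≠ 0) : ∃ l, pc b l = k := by
  unfold wy at h
  by_contra hcon
  rw [if_neg hcon] at h
  exact h rfl

lemma wy_pc (b : ℕ → ℕ) (l : ℕ) : wy b (pc b l) = 81 / 100 := by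
  unfold wy
  rw [if_pos ⟨l, rfl⟩]

lemma mem_space (hp : ∀ n, 1 ≤ p n) (he : Function.Injective e)
    (hpe : ∀ k : ℕ, (k : ℝ) + 1 ≤ p (e k)) {w : ℕ → ℝ} (hw : ∀ k, |w k| ≤ 2) :
    ∃ l : ℝ, 0 < l ∧ rho p (fun j => l * ext e w j) < ⊤ := by
  refine ⟨81 / 200, by norm_num, ?_⟩
  rw [ext_mul he]
  refine lt_of_le_of_lt (rho_ext_le hp he hpe (m := 0) (fun k hk => absurd hk (Nat.not_lt_zero _))
    (fun k => ?_)) ?_
  · rw [abs_mul, abs_of_pos (by norm_num : (0 : ℝ) < 81 / 200)]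
    have := hw k
    linarith
  · exact ENNReal.mul_lt_top ENNReal.ofReal_lt_top BB_lt_top

/-- an element of the space supported on the range of `e` -/
noncomputable def mk (hp : ∀ n, 1 ≤ p n) (he : Function.Injective e)
    (hpe : ∀ k : ℕ, (k : ℝ) + 1 ≤ p (e k)) (w : ℕ → ℝ) (hw : ∀ k, |w k| ≤ 2) : Space p :=
  ⟨ext e w, mem_space hp he hpe hw⟩

lemma rho_mk_sub (hp : ∀ n, 1 ≤ p n) (he : Function.Injective e)
    (hpe : ∀ k : ℕ, (k : ℝ) + 1 ≤ p (e k)) {w v : ℕ → ℝ} (hw : ∀ k, |w k| ≤ 2)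
    (hv : ∀ k, |v k| ≤ 2) {m : ℕ} (h0 : ∀ k, k < m → w k = v k)
    (h1 : ∀ k, |w k - v k| ≤ 81 / 100) :
    rho p (fun j => (mk hp he hpe w hw).1 j - (mk hp he hpe v hv).1 j)
      ≤ ENNReal.ofReal ((9 / 10 : ℝ) ^ m) * BB := by
  change rho p (fun j => ext e w j - ext e v j) ≤ _
  rw [ext_sub he]
  exact rho_ext_le hp he hpe (fun k hk => by rw [h0 k hk, sub_self]) h1

lemma wy_abs (b : ℕ → ℕ) (k : ℕ) : |wy b k| ≤ 2 := by
  rcases wy_cases b k with h | h <;> rw [h] <;> norm_num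

lemma wz_cases (b : ℕ → ℕ) (K k : ℕ) :
    wz b K k = wy b k ∨ (K ≤ k ∧ wz b K k = 2 * wy b k) := by
  unfold wz
  split_ifs with h
  · right; exact ⟨h, by ring⟩
  · left; ring

lemma wz_abs (b : ℕ → ℕ) (K k : ℕ) : |wz b K k| ≤ 2 := by
  rcases wz_cases b K k with h | ⟨_, h⟩ <;> rw [h] <;> rcases wy_cases b k with h' | h' <;>
    rw [h'] <;> norm_num

/-- the closed set -/
def FF (hp : ∀ n, 1 ≤ p n) (he : Function.Injective e)
    (hpe : ∀ k : ℕ, (k : ℝ) + 1 ≤ p (e k)) : Set (Space p) :=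
  {x | ∃ (b : ℕ → ℕ) (K v : ℕ), K < v ∧ (∀ᶠ i in atTop, b i = v) ∧
    x = mk hp he hpe (wz b K) (wz_abs b K)}

lemma term_le_rho (a : ℕ → ℝ) (j : ℕ) : ENNReal.ofReal (|a j| ^ p j) ≤ rho p a :=
  ENNReal.le_tsum j

theorem FF_closed (hp : ∀ n, 1 ≤ p n) (he : Function.Injective e)
    (hpe : ∀ k : ℕ, (k : ℝ) + 1 ≤ p (e k)) : RhoClosed (FF hp he hpe) := by
  intro x hx y hy
  choose b K v hKv hbv hxe using hx
  -- eventually the differences are smaller than one
  have hev : ∀ᶠ i in atTop, rho p (fun j => (x i).1 j - y.1 j) < 1 :=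
    hy.eventually (gt_mem_nhds (by norm_num))
  obtain ⟨i0, hi0⟩ := eventually_atTop.1 hev
  have hlt1 : ∀ i, i0 ≤ i → ∀ j, |(x i).1 j - y.1 j| < 1 := by
    intro i hi j
    have h1 := lt_of_le_of_lt (term_le_rho (p := p) (fun j => (x i).1 j - y.1 j) j) (hi0 i hi)
    by_contra hcon
    push Not at hcon
    have h2 : (1 : ℝ) ≤ |(x i).1 j - y.1 j| ^ p j := Real.one_le_rpow hcon (by linarith [hp j])
    have h3 : (1 : ℝ≥0∞) ≤ ENNReal.ofReal (|(x i).1 j - y.1 j| ^ p j) := by
      rw [← ENNReal.ofReal_one]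
      exact ENNReal.ofReal_le_ofReal h2
    exact absurd h1 (not_lt.2 h3)
  -- values of the `x i`
  have hxval : ∀ i k, (x i).1 (e k) = wz (b i) (K i) k := by
    intro i k
    rw [hxe i]
    exact ext_apply he _ _
  -- far codes of `b i` are in the support of `y`
  have hA : ∀ i, i0 ≤ i → ∀ l, K i ≤ pc (b i) l → y.1 (e (pc (b i) l)) ≠ 0 := by
    intro i hi l hl h0
    have h1 := hlt1 i hi (e (pc (b i) l))
    rw [h0, hxval, wz, if_pos hl, wy_pc] at h1
    norm_num at h1
  -- points of the support are eventually in the `S_{b_i}`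
  have hB : ∀ k, y.1 (e k) ≠ 0 → ∀ᶠ i in atTop, ∃ l, pc (b i) l = k := by
    intro k hk
    have hpos : 0 < |y.1 (e k)| ^ p (e k) := Real.rpow_pos_of_pos (abs_pos.2 hk) _
    have h1 : ∀ᶠ i in atTop, rho p (fun j => (x i).1 j - y.1 j)
        < ENNReal.ofReal (|y.1 (e k)| ^ p (e k)) :=
      hy.eventually (gt_mem_nhds (ENNReal.ofReal_pos.2 hpos))
    filter_upwards [h1] with i hi
    by_contra hcon
    have h2 : (x i).1 (e k) = 0 := by
      rw [hxval]
      have h3 : wy (b i) k = 0 := by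
        unfold wy
        rw [if_neg hcon]
      unfold wz
      rw [h3]
      simp
    have h4 := lt_of_le_of_lt (term_le_rho (p := p) (fun j => (x i).1 j - y.1 j) (e k)) hi
    simp only [h2, zero_sub, abs_neg] at h4
    exact lt_irrefl _ h4
  -- all `b i` agree
  have hC : ∀ i i', i0 ≤ i → i0 ≤ i' → b i = b i' := by
    intro i i' hi hi'
    funext m
    set l := max m (K i) with hl
    set l' := max m (K i') with hl'
    have h1 := hA i hi l ((le_max_right _ _).trans (lt_pc (b i) l).le)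
    have h2 := hA i' hi' l' ((le_max_right _ _).trans (lt_pc (b i') l').le)
    obtain ⟨i'', ⟨q, hq⟩, ⟨q', hq'⟩⟩ := ((hB _ h1).and (hB _ h2)).exists
    have h3 := (pc_eq_iff.1 hq).2
    have h4 := (pc_eq_iff.1 hq').2
    have e1 := (pc_eq_iff.1 hq).1
    have e2 := (pc_eq_iff.1 hq').1
    rw [← h3 m (by rw [e1]; exact le_max_left _ _), ← h4 m (by rw [e2]; exact le_max_left _ _)]
  have hD : ∀ i, i0 ≤ i → K i < v i0 := by
    intro i hi
    have h1 := hbv i
    rw [hC i i0 hi le_rfl] at h1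
    obtain ⟨m, h2, h3⟩ := (h1.and (hbv i0)).exists
    have h4 : v i = v i0 := h2.symm.trans h3
    rw [← h4]
    exact hKv i
  -- some `K < v i0` has modular distance zero
  have hE : ∃ K', K' < v i0 ∧
      rho p (fun j => (mk hp he hpe (wz (b i0) K') (wz_abs _ _)).1 j - y.1 j) = 0 := by
    by_contra hcon
    push Not at hcon
    have hne : (Finset.range (v i0)).Nonempty :=
      ⟨K i0, Finset.mem_range.2 (hD i0 le_rfl)⟩
    obtain ⟨K₀, hK₀, hmin⟩ := Finset.exists_min_image (Finset.range (v i0))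
      (fun K' => rho p (fun j => (mk hp he hpe (wz (b i0) K') (wz_abs _ _)).1 j - y.1 j)) hne
    have hpos : 0 < rho p (fun j => (mk hp he hpe (wz (b i0) K₀) (wz_abs _ _)).1 j - y.1 j) :=
      pos_iff_ne_zero.2 (hcon K₀ (Finset.mem_range.1 hK₀))
    obtain ⟨i, hi, hi2⟩ :=
      ((hy.eventually (gt_mem_nhds hpos)).and (eventually_ge_atTop i0)).exists
    have h1 := hmin (K i) (Finset.mem_range.2 (hD i hi2))
    have h2 : x i = mk hp he hpe (wz (b i0) (K i)) (wz_abs _ _) := by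
      rw [hxe i]
      congr 2
      exact hC i i0 hi2 le_rfl
    rw [h2] at hi
    exact absurd hi (not_lt.2 h1)
  obtain ⟨K', hK', h0⟩ := hE
  refine ⟨b i0, K', v i0, hK', hbv i0, ?_⟩
  apply Subtype.ext
  funext j
  have h1 := term_le_rho (p := p)
    (fun j => (mk hp he hpe (wz (b i0) K') (wz_abs _ _)).1 j - y.1 j) j
  rw [h0] at h1
  have h2 : |(mk hp he hpe (wz (b i0) K') (wz_abs _ _)).1 j - y.1 j| ^ p j ≤ 0 := by
    rw [← ENNReal.ofReal_eq_zero]
    exact le_antisymm h1 bot_le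
  by_contra hne
  have h3 : 0 < |(mk hp he hpe (wz (b i0) K') (wz_abs _ _)).1 j - y.1 j| ^ p j :=
    Real.rpow_pos_of_pos (abs_pos.2 (sub_ne_zero.2 (Ne.symm hne))) _
  linarith

/-- the zero vector -/
noncomputable def zero (hp : ∀ n, 1 ≤ p n) (he : Function.Injective e)
    (hpe : ∀ k : ℕ, (k : ℝ) + 1 ≤ p (e k)) : Space p :=
  mk hp he hpe (fun _ => 0) (fun _ => by simp)

lemma zero_notMem (hp : ∀ n, 1 ≤ p n) (he : Function.Injective e)
    (hpe : ∀ k : ℕ, (k : ℝ) + 1 ≤ p (e k)) : zero hp he hpe ∉ FF hp he hpe := by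
  rintro ⟨b, K, v, _, _, h⟩
  have h1 := congrArg (fun z : Space p => z.1 (e (pc b 0))) h
  simp only [zero, mk] at h1
  rw [ext_apply he, ext_apply he] at h1
  rcases wz_cases b K (pc b 0) with h2 | ⟨_, h2⟩ <;> rw [h2, wy_pc] at h1 <;> norm_num at h1

/-- powers are small -/
lemma exists_small (K : ℕ) : ∃ m : ℕ, ENNReal.ofReal ((9 / 10 : ℝ) ^ m) * BB
    < ((K : ℝ≥0∞) + 1)⁻¹ := by
  have h1 : Tendsto (fun m : ℕ => ENNReal.ofReal ((9 / 10 : ℝ) ^ m) * BB) atTop (𝓝 (0 * BB)) := by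
    refine ENNReal.Tendsto.mul_const ?_ (Or.inr BB_lt_top.ne)
    rw [← ENNReal.ofReal_zero]
    exact (ENNReal.continuous_ofReal.tendsto 0).comp
      (tendsto_pow_atTop_nhds_zero_of_lt_one (by norm_num) (by norm_num))
  rw [zero_mul] at h1
  have h2 : (0 : ℝ≥0∞) < ((K : ℝ≥0∞) + 1)⁻¹ := by
    rw [ENNReal.inv_pos]
    exact ENNReal.add_ne_top.2 ⟨ENNReal.natCast_ne_top K, ENNReal.one_ne_top⟩
  exact (h1.eventually (gt_mem_nhds h2)).exists

open Classical in
theorem not_separated (hp : ∀ n, 1 ≤ p n) (he : Function.Injective e)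
    (hpe : ∀ k : ℕ, (k : ℝ) + 1 ≤ p (e k)) {U V : Set (Space p)} (hU : IsOpen[modTop p] U)
    (hV : IsOpen[modTop p] V) (h0 : zero hp he hpe ∈ U) (hF : FF hp he hpe ⊆ V) :
    ¬ Disjoint U V := by
  set Y : (ℕ → ℕ) → Space p := fun b => mk hp he hpe (wy b) (wy_abs b) with hY
  -- all `Y b` with large `b 0` are in `U`
  obtain ⟨K0, hK0⟩ := open_ball hU h0
  obtain ⟨m, hm⟩ := exists_small K0
  have hYU : ∀ b : ℕ → ℕ, b 0 = m → Y b ∈ U := by
    intro b hb
    apply hK0
    refine lt_of_le_of_lt (rho_mk_sub hp he hpe (wy_abs b) _ (m := m) ?_ ?_) hm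
    · intro k hk
      by_contra hne
      obtain ⟨l, hl⟩ := wy_ne_zero hne
      have := pc_ge_zero b l
      omega
    · intro k
      rcases wy_cases b k with h | h <;> rw [h] <;> norm_num
  -- Baire category
  set A : ℕ → Set (ℕ → ℕ) := fun K => {b | ∀ z : Space p,
    rho p (fun j => z.1 j - (Y b).1 j) < ((K : ℝ≥0∞) + 1)⁻¹ → z ∈ U} with hA
  have hcont : Continuous fun b : ℕ → ℕ => b 0 := continuous_apply 0
  have hW : IsOpen {b : ℕ → ℕ | b 0 = m} := hcont.isOpen_preimage {m} (isOpen_discrete _)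
  have hcl : ∀ K, IsClosed (closure (A K) ∪ {b : ℕ → ℕ | b 0 = m}ᶜ) := fun K =>
    isClosed_closure.union hW.isClosed_compl
  have hcover : ⋃ K, (closure (A K) ∪ {b : ℕ → ℕ | b 0 = m}ᶜ) = univ := by
    rw [eq_univ_iff_forall]
    intro b
    rw [mem_iUnion]
    by_cases hb : b 0 = m
    · obtain ⟨K, hK⟩ := open_ball hU (hYU b hb)
      exact ⟨K, Or.inl (subset_closure hK)⟩
    · exact ⟨0, Or.inr hb⟩
  have hdense := dense_iUnion_interior_of_closed hcl hcover
  obtain ⟨b₁, hb₁, hb₁'⟩ := hdense.inter_open_nonempty _ hW ⟨fun _ => m, rfl⟩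
  obtain ⟨K, hK⟩ := mem_iUnion.1 hb₁'
  -- an open set inside the closure of `A K`
  set O := interior (closure (A K) ∪ {b : ℕ → ℕ | b 0 = m}ᶜ) ∩ {b : ℕ → ℕ | b 0 = m} with hO
  have hOo : IsOpen O := isOpen_interior.inter hW
  have hOsub : O ⊆ closure (A K) := by
    rintro b ⟨hb, hb'⟩
    rcases interior_subset hb with h | h
    · exact h
    · exact absurd hb' h
  have hb₁O : b₁ ∈ O := ⟨hK, hb₁⟩
  -- cylinders
  have hcyl : ∀ {G : Set (ℕ → ℕ)}, IsOpen G → ∀ b ∈ G, ∃ N, ∀ b', (∀ i, i < N → b' i = b i) →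
      b' ∈ G := by
    intro G hG b hb
    obtain ⟨I, u, hu, hsub⟩ := isOpen_pi_iff.1 hG b hb
    refine ⟨I.sup id + 1, fun b' hb' => hsub ?_⟩
    intro i hi
    have : i ≤ I.sup id := Finset.le_sup (f := id) hi
    rw [hb' i (by omega)]
    exact (hu i hi).2
  obtain ⟨N₀, hN₀⟩ := hcyl hOo b₁ hb₁O
  obtain ⟨K', hK'⟩ := exists_small K
  -- the eventually constant sequence
  set b : ℕ → ℕ := fun i => if i < N₀ then b₁ i else K' + 1 with hb
  have hbO : b ∈ O := hN₀ b fun i hi => by simp [hb, hi]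
  have hzF : mk hp he hpe (wz b K') (wz_abs b K') ∈ FF hp he hpe := by
    refine ⟨b, K', K' + 1, Nat.lt_succ_self _, ?_, rfl⟩
    filter_upwards [eventually_ge_atTop N₀] with i hi
    simp [hb, not_lt.2 hi]
  obtain ⟨L, hL⟩ := open_ball hV (hF hzF)
  obtain ⟨N, hN⟩ := exists_small L
  -- a nearby element of `A K`
  have hcylopen : IsOpen {b' : ℕ → ℕ | ∀ i, i < N → b' i = b i} := by
    have : {b' : ℕ → ℕ | ∀ i, i < N → b' i = b i}
        = ⋂ i ∈ Finset.range N, (fun b' : ℕ → ℕ => b' i) ⁻¹' {b i} := by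
      ext b'
      simp
    rw [this]
    exact isOpen_biInter_finset fun i _ => (continuous_apply i).isOpen_preimage _ (isOpen_discrete _)
  obtain ⟨b', hb'1, hb'2⟩ := mem_closure_iff.1 (hOsub hbO) _ hcylopen (fun i _ => rfl)
  -- the common point
  set w : ℕ → ℝ := fun k => wy b' k + if K' ≤ k then wy b k else 0 with hw
  have hw2 : ∀ k, |w k| ≤ 2 := by
    intro k
    simp only [hw]
    rcases wy_cases b' k with h | h <;> rcases wy_cases b k with h' | h' <;> rw [h, h'] <;>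
      split_ifs <;> norm_num
  rw [Set.not_disjoint_iff]
  refine ⟨mk hp he hpe w hw2, hb'2 _ ?_, hL _ ?_⟩
  · refine lt_of_le_of_lt (rho_mk_sub hp he hpe hw2 (wy_abs b') (m := K') ?_ ?_) hK'
    · intro k hk
      simp only [hw, if_neg (not_le.2 hk), add_zero]
    · intro k
      simp only [hw, add_sub_cancel_left]
      split_ifs
      · rcases wy_cases b k with h | h <;> rw [h] <;> norm_num
      · norm_num
  · refine lt_of_le_of_lt (rho_mk_sub hp he hpe hw2 (wz_abs b K') (m := N) ?_ ?_) hN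
    · intro k hk
      have h1 : wy b' k = wy b k := by
        have hiff : (∃ l, pc b' l = k) ↔ ∃ l, pc b l = k := by
          constructor
          · rintro ⟨l, hl⟩
            refine ⟨l, ?_⟩
            rw [← hl, pc_eq_iff]
            refine ⟨rfl, fun i hi => (hb'1 i ?_).symm⟩
            have := lt_pc b' l
            omega
          · rintro ⟨l, hl⟩
            refine ⟨l, ?_⟩
            rw [← hl, pc_eq_iff]
            refine ⟨rfl, fun i hi => hb'1 i ?_⟩
            have := lt_pc b l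
            omega
        unfold wy
        simp only [hiff]
      simp only [hw, wz, h1]
    · intro k
      have : w k - wz b K' k = wy b' k - wy b k := by
        simp only [hw, wz]
        ring
      rw [this]
      rcases wy_cases b' k with h | h <;> rcases wy_cases b k with h' | h' <;> rw [h, h'] <;>
        norm_num

end construction

/-- **Q1 is false for every unbounded exponent sequence.** -/
theorem result : ∀ p : ℕ → ℝ, (∀ n, 1 ≤ p n) → ¬ BddAbove (range p) →
    ∃ (x : Space p) (F : Set (Space p)), IsClosed[modTop p] F ∧ x ∉ F ∧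
      ¬ ∃ U V : Set (Space p), IsOpen[modTop p] U ∧ IsOpen[modTop p] V ∧ x ∈ U ∧ F ⊆ V ∧
        Disjoint U V := by
  intro p hp hunb
  -- an injective sequence of coordinates with large exponents
  have hfreq : ∀ (B : ℝ) (N : ℕ), ∃ n, N ≤ n ∧ B ≤ p n := by
    intro B N
    by_contra hcon
    push Not at hcon
    apply hunb
    refine ⟨max B (∑ i ∈ Finset.range N, p i), ?_⟩
    rintro _ ⟨n, rfl⟩
    by_cases hn : N ≤ n
    · exact (hcon n hn).le.trans (le_max_left _ _)
    · refine le_trans ?_ (le_max_right _ _)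
      exact Finset.single_le_sum (f := p) (fun i _ => by linarith [hp i])
        (Finset.mem_range.2 (by omega))
  choose g hg1 hg2 using hfreq
  let e : ℕ → ℕ := fun k => Nat.rec (g 1 0) (fun k r => g ((k : ℝ) + 2) (r + 1)) k
  have he0 : e 0 = g 1 0 := rfl
  have hes : ∀ k, e (k + 1) = g ((k : ℝ) + 2) (e k + 1) := fun k => rfl
  have hmono : StrictMono e := strictMono_nat_of_lt_succ fun k => by
    rw [hes]
    have := hg1 ((k : ℝ) + 2) (e k + 1)
    omega
  have hpe : ∀ k : ℕ, (k : ℝ) + 1 ≤ p (e k) := by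
    intro k
    cases k with
    | zero =>
      rw [he0]
      have := hg2 1 0
      simpa using this
    | succ k =>
      rw [hes]
      have := hg2 ((k : ℝ) + 2) (e k + 1)
      push_cast
      linarith
  refine ⟨zero hp hmono.injective hpe, FF hp hmono.injective hpe,
    isClosed_iff.2 (FF_closed hp hmono.injective hpe), zero_notMem hp hmono.injective hpe, ?_⟩
  rintro ⟨U, V, hU, hV, hxU, hFV, hd⟩
  exact not_separated hp hmono.injective hpe hU hV hxU hFV hd

end Pool.Agent.Results.MP_aae45c_an.NotRegular
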